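import Pool.Agent.H54.LQ.Targets

/-!
# MP_5607ba_lc, strong transfer: row DOP
-/

set_option autoImplicit false

open Set Filter Topology

namespace Pool.Agent.H75.LQ

open Pool.Agent.H93.CP Pool.Agent.H7.LP Pool.Agent.H7.LQ Pool.Agent.H54.LQ

theorem pf_DOP : T_DOP := by
  intro G _ _ _ K' K D δ hK' hK hop hδ hd a ha O hO
  obtain ⟨U, hU, hUK⟩ := hop
  have h1 : Continuous fun d : G => d⁻¹ * a := continuous_inv.mul continuous_const
  have h2 : (fun d : G => d⁻¹ * a) ⁻¹' U ∈ 𝓝 a :=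
    h1.continuousAt.preimage_mem_nhds (by simpa using hU)
  obtain ⟨n, hn⟩ := hd a (hK ha) _ (inter_mem hO h2)
  have h3 : (δ n)⁻¹ * a ∈ K' := hUK _ (D.mul_mem (D.inv_mem (hδ n)) (hK ha)) hn.2
  refine ⟨n, ?_, hn.1, h3⟩
  have h4 : δ n = a * ((δ n)⁻¹ * a)⁻¹ := by group
  rw [h4]
  exact K.mul_mem ha (K.inv_mem (hK' h3))

end Pool.Agent.H75.LQ
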