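import Pool.Agent.H75.LQ.LQ
import Pool.Agent.H68.QC.Targets

/-!
# LMQ: a quantum algorithm becomes a decision tree under a random restriction
-/

set_option autoImplicit false

namespace Pool.Agent.H75.LQ

open Finset Pool.Agent.H6.NB Pool.Agent.H70.OQ Pool.Agent.H68.QC

/-- Without queries the acceptance probability is constant. -/
lemma prob_const (A : QAlg) (h : A.T = 0) (O O' : List Bool → Bool) : A.prob O = A.prob O' := by
  unfold QAlg.prob
  rw [h]
  rfl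

/-- A quantum algorithm becomes a decision tree under a random restriction. -/
theorem lmq (V : Type) [Fintype V] [DecidableEq V] (A : QAlg)
    (tr : List Bool → Pool.Agent.H68.AC.DT V) (t D : ℕ) (q : ℝ) (ht : ∀ w, (tr w).depth ≤ t)
    (h1 : 1 ≤ t) (h2 : 1 ≤ D) (h0 : 0 < q) (hq : q ≤ 1 / 2)
    (hc : 10 ^ 4 * q * (A.T : ℝ) ^ 2 * t * D ≤ 1) :
    ∑ l : V → Bool, lw q l * ic (¬ ∃ R, R.depth ≤ D ∧ GTree A tr l R) ≤ 4 / 2 ^ D := by
  have hsum : ∑ l : V → Bool, lw q l = 1 := Pool.Agent.H62.OQ.lws V q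
  have hlw : ∀ l : V → Bool, 0 ≤ lw q l := Pool.Agent.H62.OQ.lw_nonneg q h0.le (by linarith)
  have h34 : (3 : ℝ) / 2 ^ D ≤ 4 / 2 ^ D :=
    div_le_div_of_nonneg_right (by norm_num) (by positivity)
  by_cases hT : A.T = 0
  · refine le_trans (le_of_eq (sum_eq_zero fun l _ => ?_)) (by positivity)
    unfold ic
    rw [if_neg, mul_zero]
    rw [not_not]
    refine ⟨.leaf (decide (1 / 2 ≤ A.prob fun _ => false)), Nat.zero_le _, fun y _ => ?_⟩
    rw [prob_const A hT (fun w => (tr w).eval y) fun _ => false]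
    change (_ → decide (1 / 2 ≤ A.prob fun _ => false) = true) ∧
      (_ → decide (1 / 2 ≤ A.prob fun _ => false) = false)
    refine ⟨fun h3 => ?_, fun h3 => ?_⟩
    · rw [decide_eq_true_eq]; linarith
    · rw [decide_eq_false_iff_not]; linarith
  · refine le_trans ?_ h34
    have hTp : 0 ≤ (A.T : ℝ) ^ 2 * t * D * q := by positivity
    exact pf_LQ V A tr A.T t D q le_rfl ht (Nat.one_le_iff_ne_zero.2 hT) h1 h2 h0 (by linarith)

/-- LMQ. -/
theorem pf_LMQ : T_LMQ := by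
  intro V _ _ A tr t D q ht h1 h2 h0 hq hc
  refine lmq V A tr t D q ht h1 h2 h0 hq (le_trans ?_ hc)
  have hT : (0 : ℝ) ≤ A.T := by positivity
  have h3 : (10 : ℝ) ^ 4 * (A.T : ℝ) ^ 2 ≤ 2 * 10 ^ 4 * ((A.T : ℝ) + 1) ^ 2 := by nlinarith
  have h4 : 0 ≤ q * t * D := by positivity
  calc (10 : ℝ) ^ 4 * q * (A.T : ℝ) ^ 2 * t * D = 10 ^ 4 * (A.T : ℝ) ^ 2 * (q * t * D) := by ring
    _ ≤ 2 * 10 ^ 4 * ((A.T : ℝ) + 1) ^ 2 * (q * t * D) := mul_le_mul_of_nonneg_right h3 h4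
    _ = _ := by ring

end Pool.Agent.H75.LQ
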