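import Pool.Agent.H69.LQ.Lib

/-!
# MP_8f7db2_an, theorem LQ: row RA of the board `lqm_modules`
-/

set_option autoImplicit false

open MeasureTheory Metric Set
open scoped ENNReal

open Pool.Agent.H85.LK (E adm lam Ann)
open Pool.Agent.H69.LQ

namespace Pool.Agent.H75.LQ

theorem ii_add (N : ℕ) (K : ℝ) {f f' : ℝ → ℝ} (hf : Continuous f) (hf' : Continuous f')
    {x y : ℝ} (hx : 0 < x) (hxy : x ≤ y) :
    IntervalIntegrable (fun r : ℝ => r ^ (N - 1) *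
      (f' r ^ 2 + (((N : ℝ) - 1) / r ^ 2 + K) * f r ^ 2)) volume x y := by
  apply ContinuousOn.intervalIntegrable
  intro r hr
  rw [uIcc_of_le hxy] at hr
  have hr0 : r ≠ 0 := (lt_of_lt_of_le hx hr.1).ne'
  apply ContinuousAt.continuousWithinAt
  have h1 : ContinuousAt (fun r : ℝ => ((N : ℝ) - 1) / r ^ 2) r :=
    ContinuousAt.div continuousAt_const (by fun_prop) (pow_ne_zero 2 hr0)
  have h2 : ContinuousAt (fun r : ℝ => r ^ (N - 1)) r := by fun_prop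
  exact h2.mul (((hf'.pow 2).continuousAt).add
    ((h1.add continuousAt_const).mul (hf.pow 2).continuousAt))

theorem ii_sub (N : ℕ) (K : ℝ) {f f' : ℝ → ℝ} (hf : Continuous f) (hf' : Continuous f')
    {x y : ℝ} (hx : 0 < x) (hxy : x ≤ y) :
    IntervalIntegrable (fun r : ℝ => r ^ (N - 1) *
      (f' r ^ 2 + (((N : ℝ) - 1) / r ^ 2 - K) * f r ^ 2)) volume x y := by
  simpa only [sub_eq_add_neg] using ii_add N (-K) hf hf' hx hxy

/-- lower bound on `[a, R]` -/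
theorem low_A (N : ℕ) (hN : 2 ≤ N) {L m P x y : ℝ} (hL : 0 ≤ L) (hx : 0 < x) (hxy : x ≤ y)
    (hm : ∀ r ∈ Icc x y, m ≤ r ^ (N - 1)) (hP : ∀ r ∈ Icc x y, r ^ (N - 1) ≤ P)
    {f f' : ℝ → ℝ} (hf : Continuous f) (hf' : Continuous f') :
    m * (∫ r in x..y, f' r ^ 2) - L * P * (∫ r in x..y, f r ^ 2) ≤
      ∫ r in x..y, r ^ (N - 1) * (f' r ^ 2 + (((N : ℝ) - 1) / r ^ 2 - L) * f r ^ 2) := by
  have hN1 : (0 : ℝ) ≤ (N : ℝ) - 1 := by
    have : (2 : ℝ) ≤ N := by exact_mod_cast hN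
    linarith
  rw [← intervalIntegral.integral_const_mul, ← intervalIntegral.integral_const_mul,
    ← intervalIntegral.integral_sub]
  · apply intervalIntegral.integral_mono_on hxy
    · exact (((hf'.pow 2).const_mul m).sub ((hf.pow 2).const_mul (L * P))).intervalIntegrable _ _
    · exact ii_sub N L hf hf' hx hxy
    · intro r hr
      have hr0 : 0 < r := lt_of_lt_of_le hx hr.1
      have h1 : m * f' r ^ 2 ≤ r ^ (N - 1) * f' r ^ 2 :=
        mul_le_mul_of_nonneg_right (hm r hr) (sq_nonneg _)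
      have h2 : L * r ^ (N - 1) * f r ^ 2 ≤ L * P * f r ^ 2 :=
        mul_le_mul_of_nonneg_right (mul_le_mul_of_nonneg_left (hP r hr) hL) (sq_nonneg _)
      have h3 : 0 ≤ r ^ (N - 1) * (((N : ℝ) - 1) / r ^ 2 * f r ^ 2) := by positivity
      nlinarith [h1, h2, h3]
  · exact ((hf'.pow 2).const_mul m).intervalIntegrable _ _
  · exact ((hf.pow 2).const_mul (L * P)).intervalIntegrable _ _

/-- lower bound on `[R, b]` with the additional term -/
theorem low_B (N : ℕ) (hN : 2 ≤ N) {L P x y δ : ℝ} (hL : 0 ≤ L) (hx : 0 < x) (hxy : x ≤ y)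
    (hδ : 0 ≤ δ) (hδ' : δ ≤ 1 / 2)
    (hm : ∀ r ∈ Icc x y, 1 / 2 ≤ r ^ (N - 1)) (hP : ∀ r ∈ Icc x y, r ^ (N - 1) ≤ P)
    {f f' : ℝ → ℝ} (hf : Continuous f) (hf' : Continuous f') :
    1 / 4 * (∫ r in x..y, f' r ^ 2) - (L + 1) * P * (∫ r in x..y, f r ^ 2) ≤
      (∫ r in x..y, r ^ (N - 1) * (f' r ^ 2 + (((N : ℝ) - 1) / r ^ 2 - L) * f r ^ 2)) -
      δ ^ 2 * ∫ r in x..y, r ^ (N - 1) * (f' r ^ 2 + (((N : ℝ) - 1) / r ^ 2 + 1) * f r ^ 2) := by
  have hN1 : (0 : ℝ) ≤ (N : ℝ) - 1 := by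
    have : (2 : ℝ) ≤ N := by exact_mod_cast hN
    linarith
  rw [← intervalIntegral.integral_const_mul, ← intervalIntegral.integral_const_mul,
    ← intervalIntegral.integral_const_mul, ← intervalIntegral.integral_sub,
    ← intervalIntegral.integral_sub]
  · apply intervalIntegral.integral_mono_on hxy
    · exact (((hf'.pow 2).const_mul _).sub ((hf.pow 2).const_mul _)).intervalIntegrable _ _
    · exact (ii_sub N L hf hf' hx hxy).sub ((ii_add N 1 hf hf' hx hxy).const_mul _)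
    · intro r hr
      have hr0 : 0 < r := lt_of_lt_of_le hx hr.1
      have hd1 : δ ^ 2 ≤ 1 / 2 := by nlinarith
      have h1 : 1 / 4 * f' r ^ 2 ≤ r ^ (N - 1) * (1 - δ ^ 2) * f' r ^ 2 := by
        refine mul_le_mul_of_nonneg_right ?_ (sq_nonneg _)
        nlinarith [hm r hr]
      have h2 : (L + δ ^ 2) * r ^ (N - 1) * f r ^ 2 ≤ (L + 1) * P * f r ^ 2 := by
        refine mul_le_mul_of_nonneg_right ?_ (sq_nonneg _)
        refine mul_le_mul ?_ (hP r hr) (by positivity) (by positivity)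
        linarith
      have h3 : 0 ≤ (1 - δ ^ 2) * (r ^ (N - 1) * (((N : ℝ) - 1) / r ^ 2 * f r ^ 2)) := by
        have : 0 ≤ 1 - δ ^ 2 := by linarith
        positivity
      nlinarith [h1, h2, h3]
  · exact ii_sub N L hf hf' hx hxy
  · exact (ii_add N 1 hf hf' hx hxy).const_mul _
  · exact ((hf'.pow 2).const_mul _).intervalIntegrable _ _
  · exact ((hf.pow 2).const_mul _).intervalIntegrable _ _

/-- the additional term on `[b₂, R]` -/
theorem upp_A (N : ℕ) (hN : 2 ≤ N) {P x y t C₀ : ℝ} (hx : 1 ≤ x) (hxy : x ≤ y)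
    (hP0 : 0 ≤ P) (hP : ∀ r ∈ Icc x y, r ^ (N - 1) ≤ P)
    {f f' w w' p p' : ℝ → ℝ} (hf : Continuous f) (hf' : Continuous f')
    (hw : Continuous w) (hw' : Continuous w') (h1 : ∀ r, f r = w r + t * p r)
    (h2 : ∀ r, f' r = w' r + t * p' r) (h3 : ∀ r ∈ Icc x y, |p r| ≤ C₀)
    (h4 : ∀ r ∈ Icc x y, |p' r| ≤ C₀) :
    (∫ r in x..y, r ^ (N - 1) * (f' r ^ 2 + (((N : ℝ) - 1) / r ^ 2 + 1) * f r ^ 2)) ≤
      2 * P * (∫ r in x..y, w' r ^ 2) + 2 * N * P * (∫ r in x..y, w r ^ 2) +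
        2 * P * (1 + N) * t ^ 2 * C₀ ^ 2 * (y - x) := by
  have hN1 : (1 : ℝ) ≤ (N : ℝ) - 1 := by
    have : (2 : ℝ) ≤ N := by exact_mod_cast hN
    linarith
  have h5 : 2 * P * (∫ r in x..y, w' r ^ 2) + 2 * N * P * (∫ r in x..y, w r ^ 2) +
        2 * P * (1 + N) * t ^ 2 * C₀ ^ 2 * (y - x) =
      ∫ r in x..y, (2 * P * w' r ^ 2 + 2 * N * P * w r ^ 2 +
        2 * P * (1 + N) * t ^ 2 * C₀ ^ 2) := by
    rw [intervalIntegral.integral_add, intervalIntegral.integral_add,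
      intervalIntegral.integral_const_mul, intervalIntegral.integral_const_mul,
      intervalIntegral.integral_const, smul_eq_mul]
    · ring
    · exact ((hw'.pow 2).const_mul _).intervalIntegrable _ _
    · exact ((hw.pow 2).const_mul _).intervalIntegrable _ _
    · exact (((hw'.pow 2).const_mul _).add ((hw.pow 2).const_mul _)).intervalIntegrable _ _
    · exact continuous_const.intervalIntegrable _ _
  rw [h5]
  apply intervalIntegral.integral_mono_on hxy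
  · exact ii_add N 1 hf hf' (by linarith) hxy
  · exact ((((hw'.pow 2).const_mul _).add ((hw.pow 2).const_mul _)).add
      continuous_const).intervalIntegrable _ _
  · intro r hr
    have hr1 : 1 ≤ r := hx.trans hr.1
    have h6 : ((N : ℝ) - 1) / r ^ 2 + 1 ≤ N := by
      have h7 : ((N : ℝ) - 1) / r ^ 2 ≤ (N : ℝ) - 1 := by
        apply div_le_self (by linarith)
        nlinarith
      linarith
    have h8 : 0 ≤ ((N : ℝ) - 1) / r ^ 2 + 1 := by positivity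
    have h9 : f r ^ 2 ≤ 2 * w r ^ 2 + 2 * t ^ 2 * C₀ ^ 2 := by
      rw [h1]
      have h10 : p r ^ 2 ≤ C₀ ^ 2 := by
        rw [← sq_abs]
        exact pow_le_pow_left₀ (abs_nonneg _) (h3 r hr) 2
      have h11 : t ^ 2 * p r ^ 2 ≤ t ^ 2 * C₀ ^ 2 := mul_le_mul_of_nonneg_left h10 (sq_nonneg _)
      nlinarith [sq_nonneg (w r - t * p r)]
    have h9' : f' r ^ 2 ≤ 2 * w' r ^ 2 + 2 * t ^ 2 * C₀ ^ 2 := by
      rw [h2]
      have h10 : p' r ^ 2 ≤ C₀ ^ 2 := by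
        rw [← sq_abs]
        exact pow_le_pow_left₀ (abs_nonneg _) (h4 r hr) 2
      have h11 : t ^ 2 * p' r ^ 2 ≤ t ^ 2 * C₀ ^ 2 := mul_le_mul_of_nonneg_left h10 (sq_nonneg _)
      nlinarith [sq_nonneg (w' r - t * p' r)]
    have h12 : (((N : ℝ) - 1) / r ^ 2 + 1) * f r ^ 2 ≤ N * (2 * w r ^ 2 + 2 * t ^ 2 * C₀ ^ 2) :=
      mul_le_mul h6 h9 (sq_nonneg _) (by linarith)
    calc r ^ (N - 1) * (f' r ^ 2 + (((N : ℝ) - 1) / r ^ 2 + 1) * f r ^ 2)
        ≤ P * (f' r ^ 2 + (((N : ℝ) - 1) / r ^ 2 + 1) * f r ^ 2) :=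
          mul_le_mul_of_nonneg_right (hP r hr) (by positivity)
      _ ≤ P * ((2 * w' r ^ 2 + 2 * t ^ 2 * C₀ ^ 2) + N * (2 * w r ^ 2 + 2 * t ^ 2 * C₀ ^ 2)) :=
          mul_le_mul_of_nonneg_left (add_le_add h9' h12) hP0
      _ = 2 * P * w' r ^ 2 + 2 * N * P * w r ^ 2 + 2 * P * (1 + N) * t ^ 2 * C₀ ^ 2 := by ring

theorem sq_bd {x d : ℝ} (h0 : 0 ≤ x) (h1 : x ≤ 6 * d) : x ^ 2 ≤ 36 * d ^ 2 := by
  have h := pow_le_pow_left₀ h0 h1 2
  linarith

theorem sq_bd2 {x d : ℝ} (h0 : 0 ≤ d) (h1 : d ≤ 2 * x) : d ^ 2 ≤ 4 * x ^ 2 := by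
  have h := pow_le_pow_left₀ h0 h1 2
  linarith

theorem sq_bd3 {A d : ℝ} (h0 : 0 ≤ d) (h2 : d ≤ 1) (h1 : 288 * A * d ≤ 1) :
    A * d ^ 2 * 288 ≤ 1 := by
  have h := mul_le_mul_of_nonneg_right h1 h0
  linarith

/-- (RA) the inequality on a ray. -/
theorem pf_RA (hPH : T_PH) (hPV : T_PV) (hRI : T_RI) (hP1 : T_P1) (hAS : T_AS) : T_RA := by
  clear hPV hAS
  intro N L hN hL
  have hL0 : 0 ≤ L := hL.pos.le
  have hNr : (2 : ℝ) ≤ N := by exact_mod_cast hN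
  obtain ⟨hph, hcont, -⟩ := hPH N L hN
  have hpc : Continuous (ph N L 1) := (hcont 1).1.continuous
  have hdpc : Continuous (dph N L 1) := (hcont 1).2.continuous
  obtain ⟨C₁, hC₁⟩ := (isCompact_Icc (a := (1 / 2 : ℝ)) (b := 2)).exists_bound_of_continuousOn
    hpc.continuousOn
  obtain ⟨C₂, hC₂⟩ := (isCompact_Icc (a := (1 / 2 : ℝ)) (b := 2)).exists_bound_of_continuousOn
    hdpc.continuousOn
  set C₀ : ℝ := max C₁ C₂ with hC₀
  have hp : ∀ r ∈ Icc (1 / 2 : ℝ) 2, |ph N L 1 r| ≤ C₀ := fun r hr =>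
    (hC₁ r hr).trans (le_max_left _ _)
  have hp' : ∀ r ∈ Icc (1 / 2 : ℝ) 2, |dph N L 1 r| ≤ C₀ := fun r hr =>
    (hC₂ r hr).trans (le_max_right _ _)
  set P : ℝ := 2 ^ N with hP
  have hP1' : 1 ≤ P := one_le_pow₀ (by norm_num)
  have hP0 : 0 < P := by linarith
  have hPr : ∀ r : ℝ, 0 ≤ r → r ≤ 2 → r ^ (N - 1) ≤ P := by
    intro r h0 h2
    calc r ^ (N - 1) ≤ 2 ^ (N - 1) := pow_le_pow_left₀ h0 h2 _
      _ ≤ 2 ^ N := pow_le_pow_right₀ (by norm_num) (Nat.sub_le _ _)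
  set C : ℝ := N + 2 * P + 36 * (L * P + 2 * N * P) + 12 * (L * P + 2 * N * P) +
    40 * P * (1 + N) * C₀ ^ 2 + 1 with hC
  have hC0 : 0 < C := by positivity
  set δ₀ : ℝ := min (1 / 20) (min (1 / (2 * N)) (1 / (288 * ((L + 1) * P)))) with hδ₀
  have hδ₀0 : 0 < δ₀ := lt_min (by norm_num) (lt_min (by positivity) (by positivity))
  have hd1 : δ₀ ≤ 1 / 20 := min_le_left _ _
  have hd2 : δ₀ ≤ 1 / (2 * N) := (min_le_right _ _).trans (min_le_left _ _)
  have hd3 : δ₀ ≤ 1 / (288 * ((L + 1) * P)) := (min_le_right _ _).trans (min_le_right _ _)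
  refine ⟨C, 1 / 288, δ₀, hC0, by norm_num, hδ₀0, hd1, ?_⟩
  intro δ R t u u' hδ hδδ haR hRb hu huR hub
  have hδ1 : δ ≤ 1 / 20 := hδδ.trans hd1
  have hNδ : N * δ ≤ 1 / 2 := by
    have h := hδδ.trans hd2
    rw [le_div_iff₀ (by positivity)] at h
    linarith
  have hLδ : 288 * ((L + 1) * P) * δ ≤ 1 := by
    have h := hδδ.trans hd3
    rw [le_div_iff₀ (by positivity)] at h
    linarith
  have ha0 : 0 < 1 - δ := by linarith
  have huc : Continuous u := continuous_iff_continuousAt.mpr fun x => (hu.1 x).continuousAt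
  have hu'c : Continuous u' := hu.2
  -- the function `w`
  set w : ℝ → ℝ := fun r => u r - t * ph N L 1 r with hw
  set w' : ℝ → ℝ := fun r => u' r - t * dph N L 1 r with hw'
  have hwC : C1 w w' := ⟨fun x => (hu.1 x).sub ((hph 1 x).const_mul t),
    hu'c.sub (hdpc.const_mul t)⟩
  have hwc : Continuous w := huc.sub (hpc.const_mul t)
  have hw'c : Continuous w' := hwC.2
  have hRI' := hRI N L (1 - δ) R t u u' hN ha0 haR.le hu huR
  -- Poincaré
  have hPA := (hP1 (1 - δ) R w w' haR.le hwC).2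
  have hPB := (hP1 R (1 + 5 * δ) u u' hRb hu).2
  rw [huR] at hPB
  set IW : ℝ := ∫ r in (1 - δ)..R, w' r ^ 2 with hIW
  set Iw : ℝ := ∫ r in (1 - δ)..R, w r ^ 2 with hIw
  set IU : ℝ := ∫ r in R..(1 + 5 * δ), u' r ^ 2 with hIU
  set Iu : ℝ := ∫ r in R..(1 + 5 * δ), u r ^ 2 with hIu
  have hIW0 : 0 ≤ IW := intervalIntegral.integral_nonneg haR.le fun r _ => sq_nonneg _
  have hIw0 : 0 ≤ Iw := intervalIntegral.integral_nonneg haR.le fun r _ => sq_nonneg _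
  have hIU0 : 0 ≤ IU := intervalIntegral.integral_nonneg hRb fun r _ => sq_nonneg _
  have hIu0 : 0 ≤ Iu := intervalIntegral.integral_nonneg hRb fun r _ => sq_nonneg _
  have hPA' : Iw ≤ 12 * δ * w (1 - δ) ^ 2 + 36 * δ ^ 2 * IW := by
    have h1 : 2 * (R - (1 - δ)) * w (1 - δ) ^ 2 ≤ 12 * δ * w (1 - δ) ^ 2 :=
      mul_le_mul_of_nonneg_right (by linarith) (sq_nonneg _)
    have h2 : (R - (1 - δ)) ^ 2 * IW ≤ 36 * δ ^ 2 * IW :=
      mul_le_mul_of_nonneg_right (sq_bd (by linarith) (by linarith)) hIW0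
    linarith
  have hPB' : Iu ≤ 36 * δ ^ 2 * IU := by
    have h2 : (1 + 5 * δ - R) ^ 2 * IU ≤ 36 * δ ^ 2 * IU :=
      mul_le_mul_of_nonneg_right (sq_bd (by linarith) (by linarith)) hIU0
    linarith
  -- bounds for the weight
  have hber : 1 - N * δ ≤ (1 - δ) ^ (N - 1) := by
    have h1 := one_add_mul_le_pow (a := -δ) (by linarith) (N - 1)
    have h2 : ((N - 1 : ℕ) : ℝ) = (N : ℝ) - 1 := by
      rw [Nat.cast_sub (by omega)]
      norm_num
    rw [h2] at h1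
    have h3 : (1 : ℝ) + -δ = 1 - δ := by ring
    rw [h3] at h1
    linarith
  have hlo : ∀ r : ℝ, 1 - δ ≤ r → 1 - N * δ ≤ r ^ (N - 1) := fun r hr =>
    hber.trans (pow_le_pow_left₀ ha0.le hr _)
  -- part A
  have hA := low_A N hN (L := L) (m := 1 - N * δ) (P := P) hL0 ha0 haR.le
    (fun r hr => hlo r hr.1) (fun r hr => hPr r (ha0.le.trans hr.1) (by linarith [hr.2])) hwc hw'c
  -- part B
  have hR0 : 0 < R := ha0.trans haR
  have hB := low_B N hN (L := L) (P := P) (δ := δ) hL0 hR0 hRb hδ.le (by linarith)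
    (fun r hr => by linarith [hlo r (haR.le.trans hr.1)])
    (fun r hr => hPr r (hR0.le.trans hr.1) (by linarith [hr.2])) huc hu'c
  -- the additional term
  have hadj : (∫ r in (1 - δ)..(1 + 5 * δ), r ^ (N - 1) *
      (u' r ^ 2 + (((N : ℝ) - 1) / r ^ 2 - L) * u r ^ 2)) =
      (∫ r in (1 - δ)..R, r ^ (N - 1) * (u' r ^ 2 + (((N : ℝ) - 1) / r ^ 2 - L) * u r ^ 2)) +
      ∫ r in R..(1 + 5 * δ), r ^ (N - 1) *
        (u' r ^ 2 + (((N : ℝ) - 1) / r ^ 2 - L) * u r ^ 2) :=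
    (intervalIntegral.integral_add_adjacent_intervals (ii_sub N L huc hu'c ha0 haR.le)
      (ii_sub N L huc hu'c hR0 hRb)).symm
  set SB : ℝ := ∫ r in R..(1 + 5 * δ), r ^ (N - 1) *
    (u' r ^ 2 + (((N : ℝ) - 1) / r ^ 2 + 1) * u r ^ 2) with hSB
  have hS : δ ^ 2 * (∫ r in (1 + δ / 2)..(1 + 5 * δ), r ^ (N - 1) *
      (u' r ^ 2 + (((N : ℝ) - 1) / r ^ 2 + 1) * u r ^ 2)) ≤ δ ^ 2 * SB +
      (2 * P * δ ^ 2 * IW + 2 * N * P * δ ^ 2 * Iw +
        40 * P * (1 + N) * C₀ ^ 2 * δ * (t ^ 2 * (R - 1) ^ 2)) := by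
    rcases le_or_gt R (1 + δ / 2) with hRc | hRc
    · have h1 : SB = (∫ r in R..(1 + δ / 2), r ^ (N - 1) *
          (u' r ^ 2 + (((N : ℝ) - 1) / r ^ 2 + 1) * u r ^ 2)) +
          ∫ r in (1 + δ / 2)..(1 + 5 * δ), r ^ (N - 1) *
            (u' r ^ 2 + (((N : ℝ) - 1) / r ^ 2 + 1) * u r ^ 2) :=
        (intervalIntegral.integral_add_adjacent_intervals (ii_add N 1 huc hu'c hR0 hRc)
          (ii_add N 1 huc hu'c (by linarith) (by linarith))).symm
      have h2 : 0 ≤ ∫ r in R..(1 + δ / 2), r ^ (N - 1) *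
          (u' r ^ 2 + (((N : ℝ) - 1) / r ^ 2 + 1) * u r ^ 2) := by
        apply intervalIntegral.integral_nonneg hRc
        intro r hr
        have hr0 : 0 < r := lt_of_lt_of_le hR0 hr.1
        have : 0 ≤ (N : ℝ) - 1 := by linarith
        positivity
      have h3 : 0 ≤ 2 * P * δ ^ 2 * IW + 2 * N * P * δ ^ 2 * Iw +
        40 * P * (1 + N) * C₀ ^ 2 * δ * (t ^ 2 * (R - 1) ^ 2) := by positivity
      have h4 : δ ^ 2 * (∫ r in (1 + δ / 2)..(1 + 5 * δ), r ^ (N - 1) *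
          (u' r ^ 2 + (((N : ℝ) - 1) / r ^ 2 + 1) * u r ^ 2)) ≤ δ ^ 2 * SB :=
        mul_le_mul_of_nonneg_left (by linarith) (sq_nonneg _)
      linarith
    · have h1 : (∫ r in (1 + δ / 2)..(1 + 5 * δ), r ^ (N - 1) *
            (u' r ^ 2 + (((N : ℝ) - 1) / r ^ 2 + 1) * u r ^ 2)) =
          (∫ r in (1 + δ / 2)..R, r ^ (N - 1) *
            (u' r ^ 2 + (((N : ℝ) - 1) / r ^ 2 + 1) * u r ^ 2)) + SB :=
        (intervalIntegral.integral_add_adjacent_intervals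
          (ii_add N 1 huc hu'c (by linarith) hRc.le) (ii_add N 1 huc hu'c hR0 hRb)).symm
      have h2 := upp_A N hN (P := P) (t := t) (C₀ := C₀) (f := u) (f' := u') (w := w) (w' := w')
        (p := ph N L 1) (p' := dph N L 1) (by linarith : (1 : ℝ) ≤ 1 + δ / 2) hRc.le hP0.le
        (fun r hr => hPr r (by linarith [hr.1]) (by linarith [hr.2])) huc hu'c hwc hw'c
        (fun r => by rw [hw]; ring) (fun r => by rw [hw']; ring)
        (fun r hr => hp r ⟨by linarith [hr.1], by linarith [hr.2]⟩)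
        (fun r hr => hp' r ⟨by linarith [hr.1], by linarith [hr.2]⟩)
      have h3 : ∀ g : ℝ → ℝ, Continuous g → (∀ r, 0 ≤ g r) →
          (∫ r in (1 + δ / 2)..R, g r) ≤ ∫ r in (1 - δ)..R, g r := by
        intro g hg hg0
        rw [← intervalIntegral.integral_add_adjacent_intervals
          (hg.intervalIntegrable (1 - δ) (1 + δ / 2)) (hg.intervalIntegrable (1 + δ / 2) R)]
        have : 0 ≤ ∫ r in (1 - δ)..(1 + δ / 2), g r :=
          intervalIntegral.integral_nonneg (by linarith) fun r _ => hg0 r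
        linarith
      have h4 := h3 (fun r => w' r ^ 2) (hw'c.pow 2) fun r => sq_nonneg _
      have h5 := h3 (fun r => w r ^ 2) (hwc.pow 2) fun r => sq_nonneg _
      have h6 : 2 * P * (∫ r in (1 + δ / 2)..R, w' r ^ 2) ≤ 2 * P * IW :=
        mul_le_mul_of_nonneg_left h4 (by positivity)
      have h7 : 2 * N * P * (∫ r in (1 + δ / 2)..R, w r ^ 2) ≤ 2 * N * P * Iw :=
        mul_le_mul_of_nonneg_left h5 (by positivity)
      have h8 : δ ^ 2 * (R - (1 + δ / 2)) ≤ 20 * δ * (R - 1) ^ 2 := by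
        have h9 : R - (1 + δ / 2) ≤ 5 * δ := by linarith
        have h10 : δ ^ 2 ≤ 4 * (R - 1) ^ 2 := sq_bd2 hδ.le (by linarith)
        calc δ ^ 2 * (R - (1 + δ / 2)) ≤ δ ^ 2 * (5 * δ) :=
              mul_le_mul_of_nonneg_left h9 (sq_nonneg _)
          _ = 5 * δ * δ ^ 2 := by ring
          _ ≤ 5 * δ * (4 * (R - 1) ^ 2) := mul_le_mul_of_nonneg_left h10 (by positivity)
          _ = 20 * δ * (R - 1) ^ 2 := by ring
      have h11 : 2 * P * (1 + N) * t ^ 2 * C₀ ^ 2 * (δ ^ 2 * (R - (1 + δ / 2))) ≤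
          2 * P * (1 + N) * t ^ 2 * C₀ ^ 2 * (20 * δ * (R - 1) ^ 2) :=
        mul_le_mul_of_nonneg_left h8 (by positivity)
      have h12 := mul_le_mul_of_nonneg_left (h2.trans (add_le_add (add_le_add h6 h7) le_rfl))
        (sq_nonneg δ)
      rw [h1, mul_add]
      linarith
  -- collect
  have hBc : 1 / 288 / δ ^ 2 * Iu ≤ 1 / 4 * IU - (L + 1) * P * Iu := by
    have h1 : (L + 1) * P ≤ 1 / 288 / δ ^ 2 := by
      rw [le_div_iff₀ (by positivity), le_div_iff₀ (by norm_num)]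
      exact sq_bd3 hδ.le (by linarith) hLδ
    have h2 : (L + 1) * P * Iu ≤ 1 / 288 / δ ^ 2 * Iu := mul_le_mul_of_nonneg_right h1 hIu0
    have h3 : 2 * (1 / 288 / δ ^ 2) * Iu ≤ 1 / 4 * IU := by
      calc 2 * (1 / 288 / δ ^ 2) * Iu ≤ 2 * (1 / 288 / δ ^ 2) * (36 * δ ^ 2 * IU) :=
            mul_le_mul_of_nonneg_left hPB' (by positivity)
        _ = 1 / 4 * IU := by field_simp; ring
    linarith
  have hd2' : δ ^ 2 ≤ δ := by
    have h1 : δ * δ ≤ 1 * δ := mul_le_mul_of_nonneg_right (by linarith) hδ.le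
    linarith
  set Q : ℝ := L * P + 2 * N * P with hQ
  have hQ0 : 0 ≤ Q := by positivity
  have hAc : L * P * Iw + 2 * N * P * δ ^ 2 * Iw ≤ Q * (12 * δ * w (1 - δ) ^ 2 + 36 * δ * IW) := by
    have h1 : 2 * N * P * δ ^ 2 * Iw ≤ 2 * N * P * 1 * Iw := by
      refine mul_le_mul_of_nonneg_right (mul_le_mul_of_nonneg_left ?_ (by positivity)) hIw0
      linarith
    have h2 : Q * Iw ≤ Q * (12 * δ * w (1 - δ) ^ 2 + 36 * δ ^ 2 * IW) :=
      mul_le_mul_of_nonneg_left hPA' hQ0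
    have h3 : Q * (36 * δ ^ 2 * IW) ≤ Q * (36 * δ * IW) := by
      refine mul_le_mul_of_nonneg_left (mul_le_mul_of_nonneg_right ?_ hIW0) hQ0
      linarith
    have h4 : Q * Iw = L * P * Iw + 2 * N * P * 1 * Iw := by rw [hQ]; ring
    linarith
  have hIWc : 2 * P * δ ^ 2 * IW ≤ 2 * P * δ * IW := by
    refine mul_le_mul_of_nonneg_right (mul_le_mul_of_nonneg_left hd2' (by positivity)) hIW0
  have e1 : 0 ≤ (1 + 40 * P * (1 + N) * C₀ ^ 2 + 12 * Q) * (δ * IW) := by positivity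
  have e2 : 0 ≤ (N + 2 * P + 36 * Q + 40 * P * (1 + N) * C₀ ^ 2 + 1) *
      (δ * w (1 - δ) ^ 2) := by positivity
  have e3 : 0 ≤ (N + 2 * P + 36 * Q + 12 * Q + 1) * (δ * (t ^ 2 * (R - 1) ^ 2)) := by positivity
  have hCe : C = N + 2 * P + 36 * Q + 12 * Q + 40 * P * (1 + N) * C₀ ^ 2 + 1 := by rw [hC]
  have hfin : (1 - C * δ) * IW - C * δ * w (1 - δ) ^ 2 - C * δ * t ^ 2 * (R - 1) ^ 2 ≤
      (1 - N * δ) * IW - 2 * P * δ * IW - Q * (12 * δ * w (1 - δ) ^ 2 + 36 * δ * IW) -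
        40 * P * (1 + N) * C₀ ^ 2 * δ * (t ^ 2 * (R - 1) ^ 2) := by
    rw [hCe]
    linarith [e1, e2, e3]
  have hww : u (1 - δ) - t * ph N L 1 (1 - δ) = w (1 - δ) := rfl
  rw [hadj]
  have hRI2 : (∫ r in (1 - δ)..R, r ^ (N - 1) *
      ((u' r - t * dph N L 1 r) ^ 2 + (((N : ℝ) - 1) / r ^ 2 - L) *
        (u r - t * ph N L 1 r) ^ 2)) = ∫ r in (1 - δ)..R, r ^ (N - 1) *
      (w' r ^ 2 + (((N : ℝ) - 1) / r ^ 2 - L) * w r ^ 2) := rfl
  rw [hRI2] at hRI'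
  rw [hww] at hRI' ⊢
  linarith [hRI', hA, hB, hS, hBc, hAc, hIWc, hfin]

end Pool.Agent.H75.LQ
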