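import Pool.Agent.H75.LQ.TRD
import Pool.Agent.H62.OQ.LWS

/-!
# EXW: the expected weighted number of paths is small
-/

set_option autoImplicit false

namespace Pool.Agent.H75.LQ

open Finset Pool.Agent.H6.NB Pool.Agent.H70.OQ

noncomputable section

variable {V : Type} [Fintype V] [DecidableEq V]

lemma hl_congr (m : (V → Bool) → V → ℝ) (τ : ℝ) (E : Finset V) (s l l' : V → Bool)
    (h : ∀ v, v ∉ E → l v = l' v) : hl m τ E s l = hl m τ E s l' := by
  unfold hl
  refine filter_congr fun v hv => ?_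
  rw [h v (mem_sdiff.1 hv).2]

lemma lm_congr (m : (V → Bool) → V → ℝ) (τ : ℝ) (E : Finset V) (s l l' : V → Bool)
    (h : ∀ v, v ∉ E → l v = l' v) : lm m τ E s l = lm m τ E s l' := by
  unfold lm
  refine sum_congr rfl fun v _ => ?_
  by_cases hv : v ∈ E
  · rw [if_neg (fun h' => h'.2.1 hv), if_neg (fun h' => h'.2.1 hv)]
  · rw [h v hv]

lemma wn_congr (m : (V → Bool) → V → ℝ) (τ μ : ℝ) (w : ℕ) (n : ℕ) :
    ∀ (E : Finset V) (s l l' : V → Bool), (∀ v, v ∉ E → l v = l' v) →
      Wn m τ μ w n E s l = Wn m τ μ w n E s l' := by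
  induction n with
  | zero => intro E s l l' _; rfl
  | succ n ih =>
    intro E s l l' h
    unfold Wn
    rw [hl_congr m τ E s l l' h, lm_congr m τ E s l l' h]
    split_ifs
    · rfl
    · congr 1
      refine sum_congr rfl fun a _ => ih _ _ _ _ fun v hv => h v fun h' => hv ?_
      exact mem_union_left _ h'

/-- The moment generating function of the light live mass. -/
lemma mgf (m : (V → Bool) → V → ℝ) (B μ q τ : ℝ) (w : ℕ) (hm : ∀ s v, 0 ≤ m s v)
    (hB : ∀ s, ∑ v, m s v ≤ B) (h0 : 0 < q) (h1 : q ≤ 1) (hτ : 0 < τ) (hμ : w * τ = μ)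
    (hq : 16 * q * B ≤ τ) (hw : 1 ≤ w) (E : Finset V) (s : V → Bool) :
    ∑ l : V → Bool, lw q l * ic (μ < lm m τ E s l) ≤ 1 / 2 ^ w := by
  classical
  set x : V → ℝ := fun v => if v ∉ E ∧ m s v < τ then m s v / τ else 0 with hx
  have hx0 : ∀ v, 0 ≤ x v := by
    intro v
    simp only [hx]
    split_ifs
    · exact div_nonneg (hm s v) hτ.le
    · exact le_refl _
  have hx1 : ∀ v, x v ≤ 1 := by
    intro v
    simp only [hx]
    split_ifs with h
    · rw [div_le_one hτ]; exact h.2.le
    · norm_num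
  have hxs : ∑ v, x v ≤ B / τ := by
    rw [le_div_iff₀ hτ, sum_mul]
    refine (sum_le_sum fun v _ => ?_).trans (hB s)
    simp only [hx]
    split_ifs
    · rw [div_mul_cancel₀ _ hτ.ne']
    · rw [zero_mul]; exact hm s v
  have hpt : ∀ l : V → Bool, ic (μ < lm m τ E s l) ≤
      Real.exp (-w) * ∏ v, (if l v = true then Real.exp (x v) else 1) := by
    intro l
    have e1 : ∏ v, (if l v = true then Real.exp (x v) else 1) =
        Real.exp (lm m τ E s l / τ) := by
      unfold lm
      rw [sum_div, Real.exp_sum]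
      refine prod_congr rfl fun v _ => ?_
      by_cases hl' : l v = true
      · rw [if_pos hl']
        congr 1
        simp only [hx]
        by_cases h : v ∉ E ∧ m s v < τ
        · rw [if_pos h, if_pos ⟨hl', h⟩]
        · rw [if_neg h, if_neg (fun h' => h h'.2), zero_div]
      · rw [if_neg hl', if_neg (fun h' => hl' h'.1), zero_div, Real.exp_zero]
    rw [e1, ← Real.exp_add]
    unfold ic
    split_ifs with h
    · rw [Real.one_le_exp_iff]
      have : (w : ℝ) ≤ lm m τ E s l / τ := by
        rw [le_div_iff₀ hτ, hμ]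
        exact h.le
      linarith
    · exact (Real.exp_pos _).le
  have hlw : ∀ l : V → Bool, 0 ≤ lw q l := Pool.Agent.H62.OQ.lw_nonneg q h0.le h1
  have hprod := Pool.Agent.H62.OQ.lw_prod q
    (fun (v : V) (b : Bool) => if b = true then Real.exp (x v) else (1 : ℝ))
  have hfac : ∏ v : V, (q * (if (true : Bool) = true then Real.exp (x v) else 1) +
      (1 - q) * (if (false : Bool) = true then Real.exp (x v) else 1)) ≤ Real.exp (1 / 8) := by
    have hf : ∀ v : V, q * (if (true : Bool) = true then Real.exp (x v) else 1) +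
      (1 - q) * (if (false : Bool) = true then Real.exp (x v) else 1) ≤
        Real.exp (2 * q * x v) := by
      intro v
      have ha : |Real.exp (x v) - 1| ≤ 2 * |x v| :=
        Real.abs_exp_sub_one_le (by rw [abs_of_nonneg (hx0 v)]; exact hx1 v)
      rw [abs_of_nonneg (hx0 v)] at ha
      have hb := (abs_le.1 ha).2
      have hc := Real.add_one_le_exp (2 * q * x v)
      simp only [if_true, Bool.false_eq_true, if_false]
      nlinarith
    have hf0 : ∀ v ∈ (univ : Finset V), 0 ≤
      q * (if (true : Bool) = true then Real.exp (x v) else 1) +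
      (1 - q) * (if (false : Bool) = true then Real.exp (x v) else 1) := by
      intro v _
      simp only [if_true, Bool.false_eq_true, if_false, mul_one]
      have := mul_pos h0 (Real.exp_pos (x v))
      linarith
    refine (prod_le_prod hf0 fun v _ => hf v).trans ?_
    rw [← Real.exp_sum, ← mul_sum]
    refine Real.exp_le_exp.2 ?_
    have h3 : 2 * q * ∑ v, x v ≤ 2 * q * (B / τ) :=
      mul_le_mul_of_nonneg_left hxs (by positivity)
    have h4 : 2 * q * (B / τ) ≤ 1 / 8 := by
      rw [← mul_div_assoc, div_le_iff₀ hτ]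
      linarith
    linarith
  calc ∑ l : V → Bool, lw q l * ic (μ < lm m τ E s l)
      ≤ ∑ l : V → Bool, lw q l * (Real.exp (-w) *
        ∏ v, (if l v = true then Real.exp (x v) else 1)) :=
        sum_le_sum fun l _ => mul_le_mul_of_nonneg_left (hpt l) (hlw l)
    _ = Real.exp (-w) * ∑ l : V → Bool, lw q l *
        ∏ v, (if l v = true then Real.exp (x v) else 1) := by
        rw [mul_sum]
        exact sum_congr rfl fun l _ => by ring
    _ ≤ Real.exp (-w) * Real.exp (1 / 8) := by
        rw [hprod]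
        exact mul_le_mul_of_nonneg_left hfac (Real.exp_pos _).le
    _ = Real.exp (-(w - 1 / 8)) := by rw [← Real.exp_add]; congr 1; ring
    _ ≤ 1 / 2 ^ w := by
        rw [Real.exp_neg, ← one_div]
        refine one_div_le_one_div_of_le (by positivity) ?_
        have h6 := Real.log_two_lt_d9
        have h7 : (1 : ℝ) ≤ w := by exact_mod_cast hw
        calc (2 : ℝ) ^ w = Real.exp (w * Real.log 2) := by
              rw [Real.exp_nat_mul, Real.exp_log (by norm_num)]
          _ ≤ Real.exp (w - 1 / 8) := by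
              refine Real.exp_le_exp.2 ?_
              nlinarith

omit [DecidableEq V] in
/-- The number of heavy elements. -/
lemma hv_card (m : (V → Bool) → V → ℝ) (B τ : ℝ) (hm : ∀ s v, 0 ≤ m s v)
    (hB : ∀ s, ∑ v, m s v ≤ B) (s : V → Bool) :
    ((hv m τ s).card : ℝ) * τ ≤ B := by
  calc ((hv m τ s).card : ℝ) * τ = ∑ v ∈ hv m τ s, τ := by rw [sum_const, nsmul_eq_mul]
    _ ≤ ∑ v ∈ hv m τ s, m s v := sum_le_sum fun v hv' => (mem_filter.1 hv').2
    _ ≤ ∑ v, m s v := sum_le_sum_of_subset_of_nonneg (subset_univ _) fun v _ _ => hm s v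
    _ ≤ B := hB s

lemma wn_le (m : (V → Bool) → V → ℝ) (τ μ : ℝ) (w n : ℕ) (E : Finset V) (s l : V → Bool) :
    Wn m τ μ w (n + 1) E s l ≤ (1 + 2 ^ w * ic (μ < lm m τ E s l)) +
      ∑ M ∈ (hv m τ s \ E).powerset.erase ∅, ic (∀ v ∈ M, l v = true) *
        (2 ^ M.card * ∑ a ∈ asg M s, Wn m τ μ w n (E ∪ hv m τ s) a l) := by
  have h0 : ∀ M ∈ (hv m τ s \ E).powerset.erase ∅, 0 ≤ ic (∀ v ∈ M, l v = true) *
        (2 ^ M.card * ∑ a ∈ asg M s, Wn m τ μ w n (E ∪ hv m τ s) a l) := fun M _ =>
    mul_nonneg (ic_nn _) (mul_nonneg (by positivity) (sum_nonneg fun a _ => wn_nonneg _ _ _ _ _ _ _ _))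
  have h1 : 0 ≤ 2 ^ w * ic (μ < lm m τ E s l) := mul_nonneg (by positivity) (ic_nn _)
  rw [Wn]
  split_ifs with h
  · have := sum_nonneg h0
    linarith
  · have hmem : hl m τ E s l ∈ (hv m τ s \ E).powerset.erase ∅ := by
      rw [mem_erase, mem_powerset]
      exact ⟨h, filter_subset _ _⟩
    have h2 := single_le_sum h0 hmem
    have h3 : ic (∀ v ∈ hl m τ E s l, l v = true) = 1 := by
      unfold ic
      rw [if_pos]
      intro v hv'
      exact (mem_filter.1 hv').2
    rw [h3, one_mul] at h2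
    linarith

end

/-- EXW. -/
theorem exw (INC : T_INC) : T_EXW := by
  intro V _ _ m B μ q τ w hm hB h0 h1 hτ hμ hq hw n
  have hlw : ∀ l : V → Bool, 0 ≤ lw q l := Pool.Agent.H62.OQ.lw_nonneg q h0.le h1
  have hsum : ∑ l : V → Bool, lw q l = 1 := Pool.Agent.H62.OQ.lws V q
  induction n with
  | zero => intro E s; simp [Wn]
  | succ n ih =>
    intro E s
    have hmgf := mgf m B μ q τ w hm hB h0 h1 hτ hμ hq hw E s
    have hfirst : ∑ l : V → Bool, lw q l * (1 + 2 ^ w * ic (μ < lm m τ E s l)) ≤ 2 := by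
      have e : ∑ l : V → Bool, lw q l * (1 + 2 ^ w * ic (μ < lm m τ E s l)) =
          ∑ l : V → Bool, lw q l + 2 ^ w * ∑ l : V → Bool, lw q l * ic (μ < lm m τ E s l) := by
        rw [mul_sum, ← sum_add_distrib]
        exact sum_congr rfl fun l _ => by ring
      rw [e, hsum]
      have : (2 : ℝ) ^ w * ∑ l : V → Bool, lw q l * ic (μ < lm m τ E s l) ≤ 2 ^ w * (1 / 2 ^ w) :=
        mul_le_mul_of_nonneg_left hmgf (by positivity)
      have h2 : (2 : ℝ) ^ w * (1 / 2 ^ w) = 1 := by
        have : (2 : ℝ) ^ w ≠ 0 := by positivity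
        field_simp
      linarith
    have hM : ∀ M ∈ (hv m τ s \ E).powerset.erase ∅, ∑ l : V → Bool, lw q l *
        (ic (∀ v ∈ M, l v = true) *
          (2 ^ M.card * ∑ a ∈ asg M s, Wn m τ μ w n (E ∪ hv m τ s) a l)) ≤ 3 * (4 * q) ^ M.card := by
      intro M hM
      rw [mem_erase, mem_powerset] at hM
      rw [INC V q M (fun l => 2 ^ M.card * ∑ a ∈ asg M s, Wn m τ μ w n (E ∪ hv m τ s) a l) (by
        intro l l' hl'
        congr 1
        refine sum_congr rfl fun a _ => wn_congr m τ μ w n _ _ _ _ fun v hv' => hl' v fun h => hv' ?_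
        exact mem_union_right _ (mem_sdiff.1 (hM.2 h)).1)]
      have e : ∑ l : V → Bool, lw q l * (2 ^ M.card *
          ∑ a ∈ asg M s, Wn m τ μ w n (E ∪ hv m τ s) a l) =
          2 ^ M.card * ∑ a ∈ asg M s, ∑ l : V → Bool, lw q l * Wn m τ μ w n (E ∪ hv m τ s) a l := by
        rw [sum_comm, mul_sum]
        refine sum_congr rfl fun l _ => ?_
        rw [← mul_sum]; ring
      rw [e]
      have h2 : ∑ a ∈ asg M s, ∑ l : V → Bool, lw q l * Wn m τ μ w n (E ∪ hv m τ s) a l ≤
          2 ^ M.card * 3 := by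
        calc _ ≤ ∑ a ∈ asg M s, (3 : ℝ) := sum_le_sum fun a _ => ih _ _
          _ = _ := by rw [sum_const, asg_card, nsmul_eq_mul]; push_cast; ring
      calc q ^ M.card * (2 ^ M.card * ∑ a ∈ asg M s,
            ∑ l : V → Bool, lw q l * Wn m τ μ w n (E ∪ hv m τ s) a l)
          ≤ q ^ M.card * (2 ^ M.card * (2 ^ M.card * 3)) := by
            refine mul_le_mul_of_nonneg_left (mul_le_mul_of_nonneg_left h2 (by positivity))
              (by positivity)
        _ = 3 * (4 * q) ^ M.card := by
            rw [show (4 : ℝ) * q = q * 2 * 2 by ring, mul_pow, mul_pow]; ring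
    have hsecond : ∑ M ∈ (hv m τ s \ E).powerset.erase ∅, 3 * (4 * q) ^ M.card ≤ 1 := by
      rw [← mul_sum]
      have e1 : ∑ M ∈ (hv m τ s \ E).powerset, (4 * q) ^ M.card =
          (1 + 4 * q) ^ (hv m τ s \ E).card := by
        have := prod_one_add (s := hv m τ s \ E) (f := fun _ : V => 4 * q)
        simp only [prod_const] at this
        exact this.symm
      have e2 : ∑ M ∈ (hv m τ s \ E).powerset.erase ∅, (4 * q) ^ M.card + 1 =
          (1 + 4 * q) ^ (hv m τ s \ E).card := by
        rw [← e1, ← sum_erase_add _ _ (empty_mem_powerset _)]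
        simp
      have h2 : (1 + 4 * q) ^ (hv m τ s \ E).card ≤ 4 / 3 := by
        have h3 : (1 + 4 * q) ≤ Real.exp (4 * q) := by
          have := Real.add_one_le_exp (4 * q)
          linarith
        have h4 : ((hv m τ s \ E).card : ℝ) * (4 * q) ≤ 1 / 4 := by
          have h5 := hv_card m B τ hm hB s
          have h6 : ((hv m τ s \ E).card : ℝ) ≤ (hv m τ s).card := by
            exact_mod_cast card_le_card sdiff_subset
          have h7 : ((hv m τ s).card : ℝ) * τ * (16 * q) ≤ B * (16 * q) :=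
            mul_le_mul_of_nonneg_right h5 (by positivity)
          have h8 : ((hv m τ s).card : ℝ) * (16 * q) ≤ 1 := by
            by_contra hcon
            push Not at hcon
            have : τ < ((hv m τ s).card : ℝ) * (16 * q) * τ := by nlinarith
            nlinarith
          nlinarith
        calc (1 + 4 * q) ^ (hv m τ s \ E).card ≤ Real.exp (4 * q) ^ (hv m τ s \ E).card :=
              pow_le_pow_left₀ (by positivity) h3 _
          _ = Real.exp (((hv m τ s \ E).card : ℝ) * (4 * q)) := by rw [← Real.exp_nat_mul]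
          _ ≤ Real.exp (1 / 4) := Real.exp_le_exp.2 h4
          _ ≤ 4 / 3 := by
              have h5 := Real.add_one_le_exp (-(1 / 4) : ℝ)
              have h6 : Real.exp (1 / 4) * Real.exp (-(1 / 4)) = 1 := by
                rw [← Real.exp_add]; simp
              have h7 := Real.exp_pos (1 / 4 : ℝ)
              nlinarith
      linarith
    calc ∑ l : V → Bool, lw q l * Wn m τ μ w (n + 1) E s l
        ≤ ∑ l : V → Bool, lw q l * ((1 + 2 ^ w * ic (μ < lm m τ E s l)) +
            ∑ M ∈ (hv m τ s \ E).powerset.erase ∅, ic (∀ v ∈ M, l v = true) *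
              (2 ^ M.card * ∑ a ∈ asg M s, Wn m τ μ w n (E ∪ hv m τ s) a l)) :=
          sum_le_sum fun l _ => mul_le_mul_of_nonneg_left (wn_le m τ μ w n E s l) (hlw l)
      _ = ∑ l : V → Bool, lw q l * (1 + 2 ^ w * ic (μ < lm m τ E s l)) +
          ∑ M ∈ (hv m τ s \ E).powerset.erase ∅, ∑ l : V → Bool, lw q l *
            (ic (∀ v ∈ M, l v = true) *
              (2 ^ M.card * ∑ a ∈ asg M s, Wn m τ μ w n (E ∪ hv m τ s) a l)) := by
          rw [sum_comm (s := (hv m τ s \ E).powerset.erase ∅), ← sum_add_distrib]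
          refine sum_congr rfl fun l _ => ?_
          rw [mul_add, mul_sum]
      _ ≤ 2 + ∑ M ∈ (hv m τ s \ E).powerset.erase ∅, 3 * (4 * q) ^ M.card :=
          add_le_add hfirst (sum_le_sum hM)
      _ ≤ 3 := by linarith

end Pool.Agent.H75.LQ
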