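import Pool.Agent.H75.LQ.Targets
import Pool.Agent.H59.NB.BBV

/-!
# HYM: the hybrid argument for composite queries
-/

set_option autoImplicit false

namespace Pool.Agent.H75.LQ

open Finset Pool.Agent.H6.NB Pool.Agent.H70.OQ Pool.Agent.H59.NB.BBV

noncomputable section

/-- The variables read by a tree. -/
def rd {V : Type} [DecidableEq V] (s : V → Bool) : Pool.Agent.H68.AC.DT V → Finset V
  | .leaf _ => ∅
  | .node v l r => insert v (cond (s v) (rd s r) (rd s l))

lemma rd_card {V : Type} [DecidableEq V] (s : V → Bool) (t : Pool.Agent.H68.AC.DT V) :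
    (rd s t).card ≤ t.depth := by
  induction t with
  | leaf b => simp [rd, Pool.Agent.H68.AC.DT.depth]
  | node v l r ihl ihr =>
    unfold rd Pool.Agent.H68.AC.DT.depth
    refine (card_insert_le _ _).trans ?_
    cases h : s v
    · simp only [cond_false]; omega
    · simp only [cond_true]; omega

lemma rd_eval {V : Type} [DecidableEq V] (s z : V → Bool) (t : Pool.Agent.H68.AC.DT V)
    (h : ∀ v ∈ rd s t, s v = z v) : t.eval s = t.eval z := by
  induction t with
  | leaf b => rfl
  | node v l r ihl ihr =>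
    unfold rd at h
    have hv := h v (mem_insert_self _ _)
    unfold Pool.Agent.H68.AC.DT.eval
    rw [← hv]
    cases hs : s v
    · simp only [cond_false]
      exact ihl fun u hu => h u (mem_insert_of_mem (by rw [hs]; exact hu))
    · simp only [cond_true]
      exact ihr fun u hu => h u (mem_insert_of_mem (by rw [hs]; exact hu))

variable {V : Type} [Fintype V] [DecidableEq V]

/-- The oracle. -/
def orc (g : List Bool → Pool.Agent.H68.AC.DT V) (s : V → Bool) : List Bool → Bool :=
  fun u => (g u).eval s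

/-- The basis state queries a string whose tree reads `v`. -/
def Rds (Q : QAlg) (g : List Bool → Pool.Agent.H68.AC.DT V) (s : V → Bool) (i : Q.basis) (v : V) :
    Prop := ∃ u, Q.query i = some u ∧ v ∈ rd s (g u)

/-- The query mass of the variable `v`. -/
def ms (Q : QAlg) (g : List Bool → Pool.Agent.H68.AC.DT V) (s : V → Bool) (v : V) : ℝ :=
  ∑ t ∈ range Q.T, ∑ i : Q.basis, ic (Rds Q g s i v) * ‖Q.state (orc g s) t i‖ ^ 2

lemma ic_nonneg (p : Prop) : 0 ≤ ic p := by
  unfold ic
  split_ifs <;> norm_num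

lemma ic_le_one (p : Prop) : ic p ≤ 1 := by
  unfold ic
  split_ifs <;> norm_num

omit [Fintype V] in
lemma ms_nonneg (Q : QAlg) (g : List Bool → Pool.Agent.H68.AC.DT V) (s : V → Bool) (v : V) :
    0 ≤ ms Q g s v :=
  sum_nonneg fun _ _ => sum_nonneg fun _ _ => mul_nonneg (ic_nonneg _) (by positivity)

lemma Rds_card (Q : QAlg) (g : List Bool → Pool.Agent.H68.AC.DT V) (D : ℕ)
    (hD : ∀ u, (g u).depth ≤ D) (s : V → Bool) (i : Q.basis) : ∑ v, ic (Rds Q g s i v) ≤ D := by
  classical
  have h1 : ∑ v, ic (Rds Q g s i v) = ((univ.filter fun v => Rds Q g s i v).card : ℝ) := by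
    unfold ic
    rw [← sum_filter, sum_const, nsmul_eq_mul, mul_one]
  rw [h1]
  norm_cast
  cases hq : Q.query i with
  | none =>
    rw [filter_eq_empty_iff.2]
    · simp
    · rintro v _ ⟨u, hu, _⟩
      rw [hq] at hu
      cases hu
  | some u =>
    refine (card_le_card ?_).trans ((rd_card s (g u)).trans (hD u))
    intro v hv
    obtain ⟨u', hu', hv'⟩ := (mem_filter.1 hv).2
    rw [hq] at hu'
    cases hu'
    exact hv'

lemma ms_sum (Q : QAlg) (g : List Bool → Pool.Agent.H68.AC.DT V) (D : ℕ)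
    (hD : ∀ u, (g u).depth ≤ D) (s : V → Bool) : ∑ v, ms Q g s v ≤ Q.T * D := by
  unfold ms
  rw [sum_comm]
  have h1 : ∀ t ∈ range Q.T, ∑ v : V, ∑ i : Q.basis,
      ic (Rds Q g s i v) * ‖Q.state (orc g s) t i‖ ^ 2 ≤ D := by
    intro t _
    rw [sum_comm]
    calc ∑ i : Q.basis, ∑ v : V, ic (Rds Q g s i v) * ‖Q.state (orc g s) t i‖ ^ 2
        = ∑ i : Q.basis, (∑ v : V, ic (Rds Q g s i v)) * ‖Q.state (orc g s) t i‖ ^ 2 :=
          sum_congr rfl fun i _ => (sum_mul _ _ _).symm
      _ ≤ ∑ i : Q.basis, (D : ℝ) * ‖Q.state (orc g s) t i‖ ^ 2 :=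
          sum_le_sum fun i _ => mul_le_mul_of_nonneg_right (Rds_card Q g D hD s i) (by positivity)
      _ = D := by
          rw [← mul_sum, ← norm_ev_sq, norm_state]
          simp
  refine (sum_le_sum h1).trans (le_of_eq ?_)
  rw [sum_const, card_range, nsmul_eq_mul]

/-- The weight of the differing queries. -/
lemma dw_le (Q : QAlg) (g : List Bool → Pool.Agent.H68.AC.DT V) (s z : V → Bool) (t : ℕ) :
    dw Q (orc g s) (orc g z) (Q.state (orc g s) t) ≤
      ∑ v, if s v = z v then 0 else
        ∑ i : Q.basis, ic (Rds Q g s i v) * ‖Q.state (orc g s) t i‖ ^ 2 := by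
  have h1 : ∑ v, (if s v = z v then 0 else
        ∑ i : Q.basis, ic (Rds Q g s i v) * ‖Q.state (orc g s) t i‖ ^ 2) =
      ∑ i : Q.basis, ∑ v, if s v = z v then 0 else
        ic (Rds Q g s i v) * ‖Q.state (orc g s) t i‖ ^ 2 := by
    rw [sum_comm]
    refine sum_congr rfl fun v _ => ?_
    split_ifs <;> simp
  rw [h1]
  unfold dw
  refine sum_le_sum fun i _ => ?_
  have h0 : ∀ v ∈ (univ : Finset V), 0 ≤ if s v = z v then 0 else
        ic (Rds Q g s i v) * ‖Q.state (orc g s) t i‖ ^ 2 := by
    intro v _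
    split_ifs
    · exact le_refl _
    · exact mul_nonneg (ic_nonneg _) (by positivity)
  split_ifs with h
  · obtain ⟨u, hu, hne⟩ := phase_ne Q (orc g s) (orc g z) i h
    have h2 : ∃ v ∈ rd s (g u), s v ≠ z v := by
      by_contra hcon
      push Not at hcon
      exact hne (rd_eval s z (g u) hcon).symm
    obtain ⟨v, hv, hvne⟩ := h2
    refine le_trans ?_ (single_le_sum h0 (mem_univ v))
    rw [if_neg hvne]
    unfold ic
    rw [if_pos ⟨u, hu, hv⟩, one_mul]
  · exact sum_nonneg h0

end

/-- HYM. -/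
theorem pf_HYM : T_HYM := by
  intro V _ _ Q g T D hT hD h1
  refine ⟨ms Q g, ms_nonneg Q g, fun s => (ms_sum Q g D hD s).trans ?_, fun s z h => ?_⟩
  · exact mul_le_mul_of_nonneg_right (by exact_mod_cast hT) (by positivity)
  · have hT' : (Q.T : ℝ) ≤ T := by exact_mod_cast hT
    have hTp : (1 : ℝ) ≤ T := by exact_mod_cast h1
    have e : ∑ t ∈ range Q.T, dw Q (orc g s) (orc g z) (Q.state (orc g s) t) ≤
        ∑ v, if s v = z v then 0 else ms Q g s v := by
      refine (sum_le_sum fun t _ => dw_le Q g s z t).trans (le_of_eq ?_)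
      rw [sum_comm]
      refine sum_congr rfl fun v _ => ?_
      unfold ms
      split_ifs <;> simp
    have e0 : 0 ≤ ∑ t ∈ range Q.T, dw Q (orc g s) (orc g z) (Q.state (orc g s) t) :=
      sum_nonneg fun _ _ => dw_nonneg _ _ _ _
    have h2 := norm_state_sub_sq Q (orc g s) (orc g z) Q.T
    have h3 := abs_prob_sub Q (orc g s) (orc g z)
    have h4 : ‖ev (Q.state (orc g z) Q.T - Q.state (orc g s) Q.T)‖ ^ 2 ≤ 1 / 150 := by
      refine h2.trans ?_
      have : 4 * (Q.T : ℝ) * ∑ t ∈ range Q.T, dw Q (orc g s) (orc g z) (Q.state (orc g s) t) ≤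
          4 * (T : ℝ) * ∑ v, if s v = z v then 0 else ms Q g s v :=
        mul_le_mul (by linarith) e e0 (by positivity)
      refine this.trans ?_
      linarith
    have h5 : ‖ev (Q.state (orc g z) Q.T - Q.state (orc g s) Q.T)‖ < 1 / 12 := by
      by_contra hcon
      push Not at hcon
      nlinarith
    change |Q.prob (orc g z) - Q.prob (orc g s)| < 1 / 6
    linarith

end Pool.Agent.H75.LQ
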