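import Pool.Agent.H75.LQ.Targets
import Pool.Agent.H62.OQ.LWS

/-!
# INC: independence of the coordinates
-/

set_option autoImplicit false

namespace Pool.Agent.H75.LQ

open Finset Pool.Agent.H6.NB Pool.Agent.H70.OQ

noncomputable section

/-- The weight of the other coordinates. -/
def rw {V : Type} [Fintype V] [DecidableEq V] (q : ℝ) (v : V) (l : V → Bool) : ℝ :=
  ∏ u ∈ univ.erase v, if l u then q else 1 - q

lemma lw_eq {V : Type} [Fintype V] [DecidableEq V] (q : ℝ) (v : V) (l : V → Bool) :
    lw q l = (if l v then q else 1 - q) * rw q v l := by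
  unfold lw rw
  rw [mul_prod_erase univ (fun u => if l u then q else 1 - q) (mem_univ v)]

lemma rw_flip {V : Type} [Fintype V] [DecidableEq V] (q : ℝ) (v : V) (l : V → Bool) (b : Bool) :
    rw q v (Function.update l v b) = rw q v l := by
  unfold rw
  refine prod_congr rfl fun u hu => ?_
  rw [Function.update_of_ne (ne_of_mem_erase hu)]

/-- One coordinate. -/
lemma inc_one {V : Type} [Fintype V] [DecidableEq V] (q : ℝ) (v : V) (f : (V → Bool) → ℝ)
    (hf : ∀ l b, f (Function.update l v b) = f l) :
    ∑ l : V → Bool, lw q l * ((if l v = true then 1 else 0) * f l) = q * ∑ l, lw q l * f l := by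
  have hAB : ∑ l : V → Bool, (if l v = true then (1 : ℝ) else 0) * (rw q v l * f l) =
      ∑ l : V → Bool, (if l v = true then (0 : ℝ) else 1) * (rw q v l * f l) := by
    refine sum_bij' (fun l _ => Function.update l v (!l v)) (fun l _ => Function.update l v (!l v))
      ?_ ?_ ?_ ?_ ?_
    · intro l _; exact mem_univ _
    · intro l _; exact mem_univ _
    · intro l _; simp
    · intro l _; simp
    · intro l _
      rw [rw_flip, hf]
      cases h : l v <;> simp
  have h1 : ∑ l : V → Bool, lw q l * ((if l v = true then 1 else 0) * f l) =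
      q * ∑ l : V → Bool, (if l v = true then (1 : ℝ) else 0) * (rw q v l * f l) := by
    rw [mul_sum]
    refine sum_congr rfl fun l _ => ?_
    rw [lw_eq q v l]
    cases h : l v <;> simp [mul_assoc]
  have h2 : ∑ l : V → Bool, lw q l * f l =
      q * ∑ l : V → Bool, (if l v = true then (1 : ℝ) else 0) * (rw q v l * f l) +
      (1 - q) * ∑ l : V → Bool, (if l v = true then (0 : ℝ) else 1) * (rw q v l * f l) := by
    rw [mul_sum, mul_sum, ← sum_add_distrib]
    refine sum_congr rfl fun l _ => ?_
    rw [lw_eq q v l]
    cases h : l v <;> simp [mul_assoc]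
  rw [h1, h2, ← hAB]
  ring

end

/-- INC. -/
theorem pf_INC : T_INC := by
  intro V _ _ q M
  induction M using Finset.induction_on with
  | empty =>
    intro f _
    simp [ic]
  | insert v M hv ih =>
    intro f hf
    have e : ∀ l : V → Bool, ic (∀ u ∈ insert v M, l u = true) =
        (if l v = true then 1 else 0) * ic (∀ u ∈ M, l u = true) := by
      intro l
      unfold ic
      by_cases h1 : l v = true <;> by_cases h2 : ∀ u ∈ M, l u = true <;> simp_all
    have h1 : ∑ l : V → Bool, lw q l * (ic (∀ u ∈ insert v M, l u = true) * f l) =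
        ∑ l : V → Bool, lw q l * (ic (∀ u ∈ M, l u = true) *
          ((if l v = true then 1 else 0) * f l)) := by
      refine sum_congr rfl fun l _ => ?_
      rw [e l]; ring
    have h2 : ∑ l : V → Bool, lw q l * ((if l v = true then 1 else 0) *
        (ic (∀ u ∈ M, l u = true) * f l)) =
        q * ∑ l, lw q l * (ic (∀ u ∈ M, l u = true) * f l) := by
      refine inc_one q v _ fun l b => ?_
      have e1 : f (Function.update l v b) = f l := by
        refine hf _ _ fun u hu => ?_
        rw [mem_insert, not_or] at hu
        exact Function.update_of_ne hu.1 _ _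
      have e2 : (∀ u ∈ M, Function.update l v b u = true) ↔ ∀ u ∈ M, l u = true := by
        refine forall₂_congr fun u hu => ?_
        rw [Function.update_of_ne]
        rintro rfl
        exact hv hu
      rw [e1, propext e2]
    have h3 : ∑ l : V → Bool, lw q l * (ic (∀ u ∈ M, l u = true) * f l) =
        q ^ M.card * ∑ l, lw q l * f l := by
      refine ih f fun l l' hl => hf l l' fun u hu => hl u fun h => hu (mem_insert_of_mem h)
    rw [h1]
    have h4 : ∑ l : V → Bool, lw q l * (ic (∀ u ∈ M, l u = true) *
          ((if l v = true then 1 else 0) * f l)) =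
        ∑ l : V → Bool, lw q l * ((if l v = true then 1 else 0) *
          (ic (∀ u ∈ M, l u = true) * f l)) := by
      refine sum_congr rfl fun l _ => ?_
      ring
    rw [h4, h2, h3, card_insert_of_notMem hv, pow_succ]
    ring

end Pool.Agent.H75.LQ
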