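import Pool.Agent.H75.LQ.INC
import Pool.Agent.H75.LQ.HYM
import Pool.Agent.H75.LQ.EXW

/-!
# LQ: quantum query algorithms under random restrictions
-/

set_option autoImplicit false

namespace Pool.Agent.H75.LQ

open Finset Pool.Agent.H6.NB Pool.Agent.H70.OQ

/-- EXW. -/
theorem pf_EXW : T_EXW := exw pf_INC

/-- TRE. -/
theorem pf_TRE : T_TRE := by
  intro V _ _ P m y B μ q w hm hB hP hμ hw h0 h1 hq
  have hwp : (1 : ℝ) ≤ w := by exact_mod_cast hw
  have hlw : ∀ l : V → Bool, 0 ≤ lw q l := Pool.Agent.H62.OQ.lw_nonneg q h0.le h1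
  set τ : ℝ := μ / w with hτ
  have hτ0 : 0 < τ := div_pos hμ (by linarith)
  have h2 : (w : ℝ) * τ = μ := by
    rw [hτ]
    have : (w : ℝ) ≠ 0 := by linarith
    field_simp
  have h3 : 16 * q * B ≤ τ := by
    rw [hτ, le_div_iff₀ (by linarith)]
    nlinarith
  have hE := pf_EXW V m B μ q τ w hm hB h0 h1 hτ0 h2 h3 hw (Fintype.card V + 1) ∅ y
  rw [le_div_iff₀ (by positivity), sum_mul]
  refine le_trans (sum_le_sum fun l _ => ?_) hE
  rw [mul_assoc]
  refine mul_le_mul_of_nonneg_left ?_ (hlw l)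
  unfold ic
  by_cases h : Dcd P y w l
  · rw [if_neg (not_not.2 h), zero_mul]
    exact wn_nonneg _ _ _ _ _ _ _ _
  · rw [if_pos h, one_mul]
    by_contra hcon
    push Not at hcon
    exact h (pf_TRD V P m y τ μ w hm hP l hcon)

/-- LQY. -/
theorem pf_LQY : T_LQY := by
  intro V _ _ Q g y T D w q hT hD h1 h2 hw h0 hq
  obtain ⟨m, hm, hB, hP⟩ := pf_HYM V Q g T D hT hD h1
  have hTp : (1 : ℝ) ≤ T := by exact_mod_cast h1
  have hDp : (1 : ℝ) ≤ D := by exact_mod_cast h2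
  have hwp : (1 : ℝ) ≤ w := by exact_mod_cast hw
  have hTD : (1 : ℝ) ≤ T ^ 2 * D * w := by
    have ha : (1 : ℝ) ≤ T ^ 2 := one_le_pow₀ hTp
    exact one_le_mul_of_one_le_of_one_le (one_le_mul_of_one_le_of_one_le ha hDp) hwp
  refine pf_TRE V _ m y (T * D) (1 / (600 * T)) q w hm hB (fun s z h => hP s z ?_) (by positivity)
    hw h0 ?_ ?_
  · rw [le_div_iff₀ (by positivity)] at h
    linarith
  · nlinarith
  · rw [le_div_iff₀ (by positivity)]
    nlinarith

/-- LQ. -/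
theorem pf_LQ : T_LQ := by
  intro V _ _ Q g T D w q hT hD h1 h2 hw h0 hq
  exact pf_LQY V Q g (fun _ => true) T D w q hT hD h1 h2 hw h0 hq

end Pool.Agent.H75.LQ
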