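import Pool.Agent.H75.LQ.Targets

/-!
# TRD: if the weighted number of paths is small then there is a tree
-/

set_option autoImplicit false

namespace Pool.Agent.H75.LQ

open Finset Pool.Agent.H6.NB Pool.Agent.H70.OQ

noncomputable section

variable {V : Type} [Fintype V] [DecidableEq V]

lemma mem_asg {M : Finset V} {s a : V → Bool} : a ∈ asg M s ↔ ∀ v, v ∉ M → a v = s v := by
  unfold asg
  rw [Fintype.mem_piFinset]
  refine forall_congr' fun v => ?_
  by_cases h : v ∈ M
  · simp [h]
  · simp [h]

lemma asg_card (M : Finset V) (s : V → Bool) : (asg M s).card = 2 ^ M.card := by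
  unfold asg
  rw [Fintype.card_piFinset]
  have : ∀ v : V, (if v ∈ M then (univ : Finset Bool) else {s v}).card = if v ∈ M then 2 else 1 := by
    intro v
    split_ifs <;> simp
  rw [prod_congr rfl fun v _ => this v, prod_ite_mem, univ_inter, prod_const]

lemma ic_nn (p : Prop) : 0 ≤ ic p := by
  unfold ic
  split_ifs <;> norm_num

lemma wn_nonneg (m : (V → Bool) → V → ℝ) (τ μ : ℝ) (w : ℕ) (n : ℕ) :
    ∀ E s l, 0 ≤ Wn m τ μ w n E s l := by
  induction n with
  | zero => intro E s l; simp [Wn]
  | succ n ih =>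
    intro E s l
    unfold Wn
    split_ifs
    · have := mul_nonneg (by positivity : (0 : ℝ) ≤ 2 ^ w) (ic_nn (μ < lm m τ E s l))
      linarith
    · exact mul_nonneg (by positivity) (sum_nonneg fun a _ => ih _ _ _)

lemma card_step (m : (V → Bool) → V → ℝ) (τ : ℝ) (n : ℕ) (E : Finset V) (s l : V → Bool)
    (hE : Eᶜ.card < n + 1) (hne : hl m τ E s l ≠ ∅) : (E ∪ hv m τ s)ᶜ.card < n := by
  obtain ⟨v, hv'⟩ := nonempty_iff_ne_empty.2 hne
  unfold hl at hv'
  rw [mem_filter, mem_sdiff] at hv'
  have : (E ∪ hv m τ s)ᶜ ⊂ Eᶜ := by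
    rw [compl_ssubset_compl, ssubset_iff_of_subset subset_union_left]
    exact ⟨v, mem_union_right _ hv'.1.1, hv'.1.2⟩
  have := card_lt_card this
  omega

lemma wn_ge_one (m : (V → Bool) → V → ℝ) (τ μ : ℝ) (w : ℕ) (n : ℕ) :
    ∀ E s l, Eᶜ.card < n → 1 ≤ Wn m τ μ w n E s l := by
  induction n with
  | zero => intro E s l h; exact absurd h (Nat.not_lt_zero _)
  | succ n ih =>
    intro E s l hE
    unfold Wn
    split_ifs with h
    · have := mul_nonneg (by positivity : (0 : ℝ) ≤ 2 ^ w) (ic_nn (μ < lm m τ E s l))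
      linarith
    · have hc := card_step m τ n E s l hE h
      have h1 : (2 : ℝ) ^ (hl m τ E s l).card ≤
          ∑ a ∈ asg (hl m τ E s l) s, Wn m τ μ w n (E ∪ hv m τ s) a l := by
        calc (2 : ℝ) ^ (hl m τ E s l).card = ∑ a ∈ asg (hl m τ E s l) s, (1 : ℝ) := by
              rw [sum_const, asg_card]; simp
          _ ≤ _ := sum_le_sum fun a _ => ih _ _ _ hc
      have h2 : (1 : ℝ) ≤ 2 ^ (hl m τ E s l).card := one_le_pow₀ (by norm_num)
      nlinarith

/-- Query all elements of `M`. -/
lemma qall (M : Finset V) : ∀ (s : V → Bool) (d : ℕ) (f : (V → Bool) → Pool.Agent.H68.AC.DT V),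
    (∀ a ∈ asg M s, (f a).depth ≤ d) → ∃ t : Pool.Agent.H68.AC.DT V, t.depth ≤ M.card + d ∧
      ∀ z, t.eval z = (f (fun v => if v ∈ M then z v else s v)).eval z := by
  induction M using Finset.induction_on with
  | empty =>
    intro s d f hf
    refine ⟨f s, by simpa using hf s (mem_asg.2 fun _ _ => rfl), fun z => by simp⟩
  | insert v M hv ih =>
    intro s d f hf
    have hb : ∀ b : Bool, ∀ a ∈ asg M (Function.update s v b), (f a).depth ≤ d := by
      intro b a ha
      refine hf a (mem_asg.2 fun u hu => ?_)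
      rw [mem_insert, not_or] at hu
      rw [mem_asg.1 ha u hu.2, Function.update_of_ne hu.1]
    obtain ⟨t0, d0, e0⟩ := ih (Function.update s v false) d f (hb false)
    obtain ⟨t1, d1, e1⟩ := ih (Function.update s v true) d f (hb true)
    refine ⟨.node v t0 t1, ?_, fun z => ?_⟩
    · unfold Pool.Agent.H68.AC.DT.depth
      rw [card_insert_of_notMem hv]
      omega
    · change cond (z v) (t1.eval z) (t0.eval z) = _
      have e : ∀ b, z v = b → (fun u => if u ∈ M then z u else Function.update s v b u) =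
          fun u => if u ∈ insert v M then z u else s u := by
        intro b hb
        funext u
        by_cases hu : u = v
        · subst hu
          rw [if_neg hv, Function.update_self, if_pos (mem_insert_self _ _), hb]
        · rw [Function.update_of_ne hu]
          by_cases hM : u ∈ M
          · rw [if_pos hM, if_pos (mem_insert_of_mem hM)]
          · rw [if_neg hM, if_neg]
            rw [mem_insert, not_or]
            exact ⟨hu, hM⟩
      cases hz : z v
      · rw [cond_false, e0, e false hz]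
      · rw [cond_true, e1, e true hz]

lemma trd_leaf (P : (V → Bool) → ℝ) (m : (V → Bool) → V → ℝ) (y : V → Bool) (τ μ : ℝ)
    (hm : ∀ s v, 0 ≤ m s v)
    (hP : ∀ s z, ∑ v, (if s v = z v then 0 else m s v) ≤ μ → |P z - P s| < 1 / 6)
    (E : Finset V) (s l : V → Bool) (h0 : hl m τ E s l = ∅) (h1 : lm m τ E s l ≤ μ)
    (hs : ∀ v, l v = false → s v = y v) (z : V → Bool) (hz : ∀ v, l v = false → z v = y v)
    (hE : ∀ v ∈ E, z v = s v) : |P z - P s| < 1 / 6 := by
  refine hP s z (le_trans ?_ h1)
  unfold lm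
  refine sum_le_sum fun v _ => ?_
  by_cases hsz : s v = z v
  · rw [if_pos hsz]
    split_ifs
    · exact hm s v
    · exact le_refl _
  · rw [if_neg hsz]
    have hl' : l v = true := by
      by_contra hcon
      rw [Bool.not_eq_true] at hcon
      exact hsz ((hs v hcon).trans (hz v hcon).symm)
    have hE' : v ∉ E := fun h => hsz (hE v h).symm
    have ht : m s v < τ := by
      by_contra hcon
      push Not at hcon
      have : v ∈ hl m τ E s l := by
        unfold hl hv
        rw [mem_filter, mem_sdiff, mem_filter]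
        exact ⟨⟨⟨mem_univ _, hcon⟩, hE'⟩, hl'⟩
      rw [h0] at this
      exact notMem_empty _ this
    rw [if_pos ⟨hl', hE', ht⟩]

lemma trd_aux (P : (V → Bool) → ℝ) (m : (V → Bool) → V → ℝ) (y : V → Bool) (τ μ : ℝ) (w : ℕ)
    (hm : ∀ s v, 0 ≤ m s v)
    (hP : ∀ s z, ∑ v, (if s v = z v then 0 else m s v) ≤ μ → |P z - P s| < 1 / 6)
    (l : V → Bool) (n : ℕ) : ∀ (E : Finset V) (s : V → Bool) (j : ℕ), Eᶜ.card < n → j ≤ w →
      Wn m τ μ w n E s l < 2 ^ j → (∀ v, l v = false → s v = y v) →
      ∃ t : Pool.Agent.H68.AC.DT V, t.depth ≤ j ∧ ∀ z, (∀ v, l v = false → z v = y v) →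
        (∀ v ∈ E, z v = s v) →
        (2 / 3 ≤ P z → t.eval z = true) ∧ (P z ≤ 1 / 3 → t.eval z = false) := by
  induction n with
  | zero => intro E s j h; exact absurd h (Nat.not_lt_zero _)
  | succ n ih =>
    intro E s j hE hj hW hs
    by_cases h : hl m τ E s l = ∅
    · rw [Wn, if_pos h] at hW
      have h1 : lm m τ E s l ≤ μ := by
        by_contra hcon
        push Not at hcon
        unfold ic at hW
        rw [if_pos hcon] at hW
        have : (2 : ℝ) ^ j ≤ 2 ^ w := pow_le_pow_right₀ (by norm_num) hj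
        linarith
      refine ⟨.leaf (decide (1 / 2 ≤ P s)), Nat.zero_le _, fun z hz hzE => ?_⟩
      have h2 := trd_leaf P m y τ μ hm hP E s l h h1 hs z hz hzE
      rw [abs_lt] at h2
      change (_ → decide (1 / 2 ≤ P s) = true) ∧ (_ → decide (1 / 2 ≤ P s) = false)
      refine ⟨fun h3 => ?_, fun h3 => ?_⟩
      · rw [decide_eq_true_eq]; linarith
      · rw [decide_eq_false_iff_not]; linarith
    · rw [Wn, if_neg h] at hW
      have hc := card_step m τ n E s l hE h
      set M := hl m τ E s l with hM
      have hp : (0 : ℝ) < 2 ^ M.card := by positivity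
      have h1 : (2 : ℝ) ^ M.card ≤ ∑ a ∈ asg M s, Wn m τ μ w n (E ∪ hv m τ s) a l := by
        calc (2 : ℝ) ^ M.card = ∑ a ∈ asg M s, (1 : ℝ) := by
              rw [sum_const, asg_card]; simp
          _ ≤ _ := sum_le_sum fun a _ => wn_ge_one m τ μ w n _ _ _ hc
      have hcj : M.card ≤ j := by
        by_contra hcon
        push Not at hcon
        have h2 : (2 : ℝ) ^ j ≤ 2 ^ M.card := pow_le_pow_right₀ (by norm_num) hcon.le
        have h3 : (1 : ℝ) ≤ 2 ^ M.card := one_le_pow₀ (by norm_num)
        nlinarith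
      have hsub : ∀ a ∈ asg M s, Wn m τ μ w n (E ∪ hv m τ s) a l < 2 ^ (j - M.card) := by
        intro a ha
        have h2 := single_le_sum (fun a _ => wn_nonneg m τ μ w n (E ∪ hv m τ s) a l) ha
        have h3 : (2 : ℝ) ^ j = 2 ^ M.card * 2 ^ (j - M.card) := by
          rw [← pow_add]; congr 1; omega
        rw [h3] at hW
        have h4 := lt_of_mul_lt_mul_left hW hp.le
        exact lt_of_le_of_lt h2 h4
      have hex : ∀ a : V → Bool, ∃ t : Pool.Agent.H68.AC.DT V, a ∈ asg M s →
          t.depth ≤ j - M.card ∧ ∀ z, (∀ v, l v = false → z v = y v) →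
            (∀ v ∈ E ∪ hv m τ s, z v = a v) →
            (2 / 3 ≤ P z → t.eval z = true) ∧ (P z ≤ 1 / 3 → t.eval z = false) := by
        intro a
        by_cases ha : a ∈ asg M s
        · obtain ⟨t, ht⟩ := ih (E ∪ hv m τ s) a (j - M.card) hc (by omega) (hsub a ha) (by
            intro v hv'
            rw [mem_asg.1 ha v ?_, hs v hv']
            intro hvM
            rw [hM] at hvM
            unfold hl at hvM
            rw [mem_filter] at hvM
            rw [hv'] at hvM
            exact absurd hvM.2 (by decide))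
          exact ⟨t, fun _ => ht⟩
        · exact ⟨.leaf false, fun h' => absurd h' ha⟩
      choose f hf using hex
      obtain ⟨t, ht1, ht2⟩ := qall M s (j - M.card) f (fun a ha => (hf a ha).1)
      refine ⟨t, by omega, fun z hz hzE => ?_⟩
      have ha : (fun v => if v ∈ M then z v else s v) ∈ asg M s :=
        mem_asg.2 fun v hv' => if_neg hv'
      rw [ht2 z]
      refine (hf _ ha).2 z hz fun v hv' => ?_
      by_cases hvM : v ∈ M
      · rw [if_pos hvM]
      · rw [if_neg hvM]
        by_cases hvE : v ∈ E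
        · exact hzE v hvE
        · have hlv : l v = false := by
            by_contra hcon
            rw [Bool.not_eq_false] at hcon
            refine hvM ?_
            rw [hM]
            unfold hl
            rw [mem_filter, mem_sdiff]
            exact ⟨⟨(mem_union.1 hv').resolve_left hvE, hvE⟩, hcon⟩
          rw [hz v hlv, hs v hlv]

end

/-- TRD. -/
theorem pf_TRD : T_TRD := by
  intro V _ _ P m y τ μ w hm hP l hW
  obtain ⟨t, h1, h2⟩ := trd_aux P m y τ μ w hm hP l (Fintype.card V + 1) ∅ y w (by simp)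
    le_rfl hW (fun _ _ => rfl)
  exact ⟨t, h1, fun s hs => h2 s hs fun v hv => absurd hv (notMem_empty v)⟩

end Pool.Agent.H75.LQ
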