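import Pool.Agent.H70.OQ.Defs

/-!
# Quantum query algorithms under random restrictions: definitions and targets
-/

set_option autoImplicit false

namespace Pool.Agent.H75.LQ

open Finset Pool.Agent.H6.NB Pool.Agent.H70.OQ

/-- Some decision tree of depth at most `w` decides the promise problem of the probability `P` for all
inputs which agree with `y` off the live elements. -/
def Dcd {V : Type} (P : (V → Bool) → ℝ) (y : V → Bool) (w : ℕ) (l : V → Bool) : Prop :=
  ∃ t : Pool.Agent.H68.AC.DT V, t.depth ≤ w ∧ ∀ s : V → Bool, (∀ v, l v = false → s v = y v) →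
    (2 / 3 ≤ P s → t.eval s = true) ∧ (P s ≤ 1 / 3 → t.eval s = false)

/-- LQ: a quantum query algorithm whose queries are answered by shallow decision trees becomes a shallow
decision tree (in the promise sense) under a random restriction. -/
def T_LQ : Prop := ∀ (V : Type) [Fintype V] [DecidableEq V] (Q : QAlg)
  (g : List Bool → Pool.Agent.H68.AC.DT V) (T D w : ℕ) (q : ℝ),
  Q.T ≤ T → (∀ u, (g u).depth ≤ D) → 1 ≤ T → 1 ≤ D → 1 ≤ w → 0 < q →
  9600 * T ^ 2 * D * w * q ≤ 1 →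
  ∑ l : V → Bool, lw q l * ic (¬ ∃ t : Pool.Agent.H68.AC.DT V, t.depth ≤ w ∧
    ∀ s : V → Bool, (∀ v, l v = false → s v = true) →
      (2 / 3 ≤ Q.prob (fun u => (g u).eval s) → t.eval s = true) ∧
      (Q.prob (fun u => (g u).eval s) ≤ 1 / 3 → t.eval s = false)) ≤ 3 / 2 ^ w

/-- LQY: the same for restrictions to any input `y`. -/
def T_LQY : Prop := ∀ (V : Type) [Fintype V] [DecidableEq V] (Q : QAlg)
  (g : List Bool → Pool.Agent.H68.AC.DT V) (y : V → Bool) (T D w : ℕ) (q : ℝ),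
  Q.T ≤ T → (∀ u, (g u).depth ≤ D) → 1 ≤ T → 1 ≤ D → 1 ≤ w → 0 < q →
  9600 * T ^ 2 * D * w * q ≤ 1 →
  ∑ l : V → Bool, lw q l * ic (¬ Dcd (fun s => Q.prob (fun u => (g u).eval s)) y w l) ≤ 3 / 2 ^ w

/-- HYM: the hybrid argument for composite queries, with the query masses of the variables. -/
def T_HYM : Prop := ∀ (V : Type) [Fintype V] [DecidableEq V] (Q : QAlg)
  (g : List Bool → Pool.Agent.H68.AC.DT V) (T D : ℕ), Q.T ≤ T → (∀ u, (g u).depth ≤ D) → 1 ≤ T →
  ∃ m : (V → Bool) → V → ℝ, (∀ s v, 0 ≤ m s v) ∧ (∀ s, ∑ v, m s v ≤ T * D) ∧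
    ∀ s z, 600 * T * ∑ v, (if s v = z v then 0 else m s v) ≤ 1 →
      |Q.prob (fun u => (g u).eval z) - Q.prob (fun u => (g u).eval s)| < 1 / 6

/-- TRE: the decision tree, for an abstract function with masses of the variables. -/
def T_TRE : Prop := ∀ (V : Type) [Fintype V] [DecidableEq V] (P : (V → Bool) → ℝ)
  (m : (V → Bool) → V → ℝ) (y : V → Bool) (B μ q : ℝ) (w : ℕ), (∀ s v, 0 ≤ m s v) →
  (∀ s, ∑ v, m s v ≤ B) →
  (∀ s z, ∑ v, (if s v = z v then 0 else m s v) ≤ μ → |P z - P s| < 1 / 6) →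
  0 < μ → 1 ≤ w → 0 < q → q ≤ 1 → 16 * (w * B) * q ≤ μ →
  ∑ l : V → Bool, lw q l * ic (¬ Dcd P y w l) ≤ 3 / 2 ^ w

/-! ## The tree and the weighted number of its paths -/

section

variable {V : Type} [Fintype V] [DecidableEq V]

/-- The heavy elements. -/
noncomputable def hv (m : (V → Bool) → V → ℝ) (τ : ℝ) (s : V → Bool) : Finset V :=
  univ.filter fun v => τ ≤ m s v

/-- The live heavy elements which were not exposed before. -/
noncomputable def hl (m : (V → Bool) → V → ℝ) (τ : ℝ) (E : Finset V) (s l : V → Bool) : Finset V :=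
  (hv m τ s \ E).filter fun v => l v = true

open Classical in
/-- The mass of the light live elements which were not exposed before. -/
noncomputable def lm (m : (V → Bool) → V → ℝ) (τ : ℝ) (E : Finset V) (s l : V → Bool) : ℝ :=
  ∑ v, if l v = true ∧ v ∉ E ∧ m s v < τ then m s v else 0

/-- All ways to change `s` on `M`. -/
def asg (M : Finset V) (s : V → Bool) : Finset (V → Bool) :=
  Fintype.piFinset fun v => if v ∈ M then univ else {s v}

/-- The weighted number of paths of the tree. -/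
noncomputable def Wn (m : (V → Bool) → V → ℝ) (τ μ : ℝ) (w : ℕ) :
    ℕ → Finset V → (V → Bool) → (V → Bool) → ℝ
  | 0, _, _, _ => 0
  | n + 1, E, s, l => if hl m τ E s l = ∅ then 1 + 2 ^ w * ic (μ < lm m τ E s l) else
      2 ^ (hl m τ E s l).card * ∑ a ∈ asg (hl m τ E s l) s, Wn m τ μ w n (E ∪ hv m τ s) a l

end

/-- TRD: if the weighted number of paths is small then there is a tree. -/
def T_TRD : Prop := ∀ (V : Type) [Fintype V] [DecidableEq V] (P : (V → Bool) → ℝ)
  (m : (V → Bool) → V → ℝ) (y : V → Bool) (τ μ : ℝ) (w : ℕ), (∀ s v, 0 ≤ m s v) →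
  (∀ s z, ∑ v, (if s v = z v then 0 else m s v) ≤ μ → |P z - P s| < 1 / 6) →
  ∀ l, Wn m τ μ w (Fintype.card V + 1) ∅ y l < 2 ^ w → Dcd P y w l

/-- EXW: the expected weighted number of paths is small. -/
def T_EXW : Prop := ∀ (V : Type) [Fintype V] [DecidableEq V]
  (m : (V → Bool) → V → ℝ) (B μ q τ : ℝ) (w : ℕ), (∀ s v, 0 ≤ m s v) → (∀ s, ∑ v, m s v ≤ B) →
  0 < q → q ≤ 1 → 0 < τ → w * τ = μ → 16 * q * B ≤ τ → 1 ≤ w →
  ∀ n E s, ∑ l : V → Bool, lw q l * Wn m τ μ w n E s l ≤ 3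

/-- IND: independence of the coordinates. -/
def T_INC : Prop := ∀ (V : Type) [Fintype V] [DecidableEq V] (q : ℝ) (M : Finset V)
  (f : (V → Bool) → ℝ), (∀ l l', (∀ v, v ∉ M → l v = l' v) → f l = f l') →
  ∑ l : V → Bool, lw q l * (ic (∀ v ∈ M, l v = true) * f l) = q ^ M.card * ∑ l, lw q l * f l

end Pool.Agent.H75.LQ
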